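import Pool.Agent.Helper38.EC.GoalsE1

/-!
# MP_ecc237_nt: RAT, family A, t-channel
-/

set_option autoImplicit false

open MeasureTheory Filter Topology Set

namespace Pool.Agent.Helper96.EC.E_RAT

open EC237 EC237.DX

noncomputable def cc (w : ℂ) (t : ℤ × ℤ) : ℂ :=
  if InCl 2 t then -(2 / 3) * w ^ 3 * nI w t else 0

noncomputable def uu (w : ℂ) (i : ℕ) (t k : ℤ × ℤ) : ℂ :=
  if InCl 1 k ∧ InCl 1 (t - k) then xc w i (-1) 1 k (t - k) else 0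

noncomputable def vv (w : ℂ) (j : ℕ) (t k : ℤ × ℤ) : ℂ :=
  if InCl 1 k ∧ InCl 3 (-t - k) then xc w j (-1) 1 (-t - k) k else 0

theorem k4_eq (p : Tri) : -(p.2.1 + p.2.2) - p.1 = k4 p := by
  unfold k4
  abel

theorem clT_iff (p : Tri) : ClT 1 1 1 p ↔ InCl 2 (p.2.1 + p.2.2) ∧
    (InCl 1 p.2.1 ∧ InCl 1 (p.2.1 + p.2.2 - p.2.1)) ∧
    (InCl 1 p.1 ∧ InCl 3 (-(p.2.1 + p.2.2) - p.1)) := by
  unfold ClT InCl
  simp only [Prod.fst_add, Prod.snd_add, Prod.fst_sub, Prod.snd_sub, Prod.fst_neg, Prod.snd_neg]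
  omega

theorem term_eq (w : ℂ) (i j : ℕ) (p : Tri) :
    cc w (p.2.1 + p.2.2) * (uu w i (p.2.1 + p.2.2) p.2.1 * vv w j (p.2.1 + p.2.2) p.1) =
    if ClT 1 1 1 p then -(2 / 3) * w ^ 3 * (nI w (p.2.1 + p.2.2) *
      (xc w i (-1) 1 p.2.1 p.2.2 * xc w j (-1) 1 (k4 p) p.1)) else 0 := by
  have h := clT_iff p
  unfold cc uu vv
  by_cases h0 : ClT 1 1 1 p
  · obtain ⟨h1, h2, h3⟩ := h.1 h0
    rw [if_pos h1, if_pos h2, if_pos h3, if_pos h0, k4_eq, add_sub_cancel_left]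
    ring
  · rw [if_neg h0]
    by_cases h1 : InCl 2 (p.2.1 + p.2.2)
    · by_cases h2 : InCl 1 p.2.1 ∧ InCl 1 (p.2.1 + p.2.2 - p.2.1)
      · have h3 : ¬ (InCl 1 p.1 ∧ InCl 3 (-(p.2.1 + p.2.2) - p.1)) := fun h3 =>
          h0 (h.2 ⟨h1, h2, h3⟩)
        rw [if_neg h3, mul_zero, mul_zero]
      · rw [if_neg h2, zero_mul, mul_zero]
    · rw [if_neg h1, zero_mul]

theorem summable_term (h2 : G_XC) (h4 : G_PS) {y : ℝ} (hy : 0 < y) (i j : ℕ) (hij : i + j = 2) :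
    Summable (fun p : Tri => cc (y:ℂ) (p.2.1 + p.2.2) *
      (uu (y:ℂ) i (p.2.1 + p.2.2) p.2.1 * vv (y:ℂ) j (p.2.1 + p.2.2) p.1)) := by
  have h5 := (h4 y hy i j 0 (by omega) (-1) 1 (-1) 1 0 (by norm_num) (by norm_num) (by norm_num)
    (by norm_num) (by norm_num)).2
  refine Summable.of_norm_bounded (g := fun p : Tri => ‖(-(2 / 3) * (y:ℂ) ^ 3 : ℂ)‖ *
    (if p.1 ≠ 0 ∧ p.2.1 ≠ 0 ∧ p.2.2 ≠ 0 ∧ k4 p ≠ 0 then
    ‖ab (y:ℂ) 0 0 (p.2.1 + p.2.2) *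
      (xc (y:ℂ) i (-1) 1 p.2.1 p.2.2 * xc (y:ℂ) j (-1) 1 (k4 p) p.1)‖ else 0)) (h5.mul_left _) ?_
  intro p
  rw [term_eq]
  by_cases h0 : ClT 1 1 1 p
  · have h6 : p.1 ≠ 0 ∧ p.2.1 ≠ 0 ∧ p.2.2 ≠ 0 ∧ k4 p ≠ 0 := by
      have h7 := (clT_iff p).1 h0
      have h8 := h7.2.2.2
      rw [k4_eq] at h8
      refine ⟨?_, ?_, ?_, ?_⟩
      · intro h
        have := h0.1
        rw [h] at this
        simp [InCl] at this
      · intro h
        have := h0.2.1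
        rw [h] at this
        simp [InCl] at this
      · intro h
        have := h0.2.2
        rw [h] at this
        simp [InCl] at this
      · intro h
        rw [h] at h8
        simp [InCl] at h8
    rw [if_pos h0, if_pos h6, (h2 (y:ℂ)).2.2.2.2.2.2.2.2.1, norm_mul]
  · rw [if_neg h0, norm_zero]
    refine mul_nonneg (norm_nonneg _) ?_
    split_ifs
    · exact norm_nonneg _
    · exact le_rfl

theorem famA_eq (h2 : G_XC) (w : ℂ) :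
    (famA fun v1 v2 v3 v4 => PowerSeries.coeff 2 (Qs w v2 v3 v4 v1)) = fun p : Tri =>
    (cc w (p.2.1 + p.2.2) * (uu w 0 (p.2.1 + p.2.2) p.2.1 * vv w 2 (p.2.1 + p.2.2) p.1) +
    cc w (p.2.1 + p.2.2) * (uu w 1 (p.2.1 + p.2.2) p.2.1 * vv w 1 (p.2.1 + p.2.2) p.1)) +
    cc w (p.2.1 + p.2.2) * (uu w 2 (p.2.1 + p.2.2) p.2.1 * vv w 0 (p.2.1 + p.2.2) p.1) := by
  funext p
  rw [term_eq, term_eq, term_eq]
  unfold famA
  by_cases h0 : ClT 1 1 1 p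
  · have h7 := (h2 w).2.2.2.2.2.2.1 (-1) (-1) p.2.1 p.2.2 (k4 p) p.1
    rw [neg_neg] at h7
    rw [if_pos h0, if_pos h0, if_pos h0, if_pos h0]
    refine h7.trans ?_
    ring
  · rw [if_neg h0, if_neg h0, if_neg h0, if_neg h0, add_zero, add_zero]

theorem sum_vv (h2 : G_XC) (w : ℂ) (j : ℕ) (t : ℤ × ℤ) :
    ∑' k, vv w j t k = -cs w j 1 3 1 (-1) (-t) := by
  unfold cs
  rw [← tsum_neg]
  refine tsum_congr fun k => ?_
  unfold vv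
  split_ifs with h
  · exact (h2 w).1 _ _ _ _ _
  · exact neg_zero.symm

theorem thm (h1 : G_FUB) (h2 : G_XC) (h3 : G_SYM) (h4 : G_PS) : G_RAT := by
  intro y hy
  have s0 := summable_term h2 h4 hy 0 2 rfl
  have s1 := summable_term h2 h4 hy 1 1 rfl
  have s2 := summable_term h2 h4 hy 2 0 rfl
  obtain ⟨-, y2, y3, y4, -, y6⟩ := h3 y hy
  have u0 : ∀ t, ∑' k, uu (y:ℂ) 0 t k = 0 := fun t => y2 1 (-1) 1 t
  have u2 : ∀ t, ∑' k, uu (y:ℂ) 2 t k = 0 := fun t => by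
    have h := y6 2 1 1 1 (-1) t
    rw [neg_neg, y3, mul_zero] at h
    exact h
  have u1 : ∀ t : ℤ × ℤ, t ≠ 0 → ∑' k, uu (y:ℂ) 1 t k = -(2 * Ys (y:ℂ) t) := fun t ht => by
    have h := y6 1 1 1 1 (-1) t
    rw [neg_neg, y4 t ht, pow_one, neg_one_mul] at h
    exact h
  have f0 := ((h1 (cc (y:ℂ)) (uu (y:ℂ) 0) (vv (y:ℂ) 2)).2 s0).2
  have f1 := ((h1 (cc (y:ℂ)) (uu (y:ℂ) 1) (vv (y:ℂ) 1)).2 s1).2
  have f2 := ((h1 (cc (y:ℂ)) (uu (y:ℂ) 2) (vv (y:ℂ) 0)).2 s2).2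
  simp only [u0, zero_mul, mul_zero, tsum_zero] at f0
  simp only [u2, zero_mul, mul_zero, tsum_zero] at f2
  rw [famA_eq h2]
  refine ⟨(s0.add s1).add s2, ?_⟩
  rw [Summable.tsum_add (s0.add s1) s2, Summable.tsum_add s0 s1, f0, f1, f2, zero_add, add_zero,
    ← tsum_mul_left, ← tsum_mul_left]
  refine tsum_congr fun t => ?_
  unfold cc
  by_cases h : InCl 2 t
  · have ht : t ≠ 0 := by
      intro h'
      rw [h'] at h
      simp [InCl] at h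
    rw [if_pos h, if_pos h, u1 t ht, sum_vv h2]
    unfold Ws
    ring
  · rw [if_neg h, if_neg h]
    ring

end Pool.Agent.Helper96.EC.E_RAT
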